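import Pool.Agent.H54.TS.Defs

/-!
# Project TS, module P0: the Erdos-Hajnal lemma
-/

set_option autoImplicit false

universe u

namespace Pool.Agent.H54.TS

namespace P0

open Cardinal Set

section

variable {V : Type u}

/-- `M` is closed under `g` inside `S`. -/
def Cl (g : Finset V → Set V) (S M : Set V) : Prop :=
  ∀ A : Finset V, (A : Set V) ⊆ M → g A ∩ S ⊆ M

/-- Iterates of the closure operation. -/
def it (g : Finset V → Set V) (S A : Set V) : ℕ → Set V
  | 0 => A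
  | n + 1 => it g S A n ∪ ⋃ D : {D : Finset V // (D : Set V) ⊆ it g S A n}, g D.1 ∩ S

/-- The closure. -/
def cl (g : Finset V → Set V) (S A : Set V) : Set V := ⋃ n, it g S A n

theorem it_mono (g : Finset V → Set V) (S A : Set V) : Monotone (it g S A) :=
  monotone_nat_of_le_succ fun _ => subset_union_left

theorem it_subset (g : Finset V → Set V) {S A : Set V} (hA : A ⊆ S) (n : ℕ) :
    it g S A n ⊆ S := by
  induction n with
  | zero => exact hA
  | succ n ih => exact union_subset ih (iUnion_subset fun D => inter_subset_right)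

theorem cl_subset (g : Finset V → Set V) {S A : Set V} (hA : A ⊆ S) : cl g S A ⊆ S :=
  iUnion_subset fun n => it_subset g hA n

theorem subset_cl (g : Finset V → Set V) (S A : Set V) : A ⊆ cl g S A :=
  subset_iUnion (it g S A) 0

theorem it_mono_set (g : Finset V → Set V) (S : Set V) {A B : Set V} (h : A ⊆ B) (n : ℕ) :
    it g S A n ⊆ it g S B n := by
  induction n with
  | zero => exact h
  | succ n ih =>
    refine union_subset_union ih (iUnion_subset fun D => ?_)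
    exact subset_iUnion (fun D : {D : Finset V // (D : Set V) ⊆ it g S B n} => g D.1 ∩ S)
      ⟨D.1, D.2.trans ih⟩

theorem cl_mono (g : Finset V → Set V) (S : Set V) {A B : Set V} (h : A ⊆ B) :
    cl g S A ⊆ cl g S B :=
  iUnion_mono fun n => it_mono_set g S h n

theorem cl_closed (g : Finset V → Set V) (S A : Set V) : Cl g S (cl g S A) := by
  intro D hD
  have hdir : Directed (· ⊆ ·) (it g S A) := (it_mono g S A).directed_le
  obtain ⟨n, hn⟩ := hdir.exists_mem_subset_of_finset_subset_biUnion hD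
  intro v hv
  refine mem_iUnion.mpr ⟨n + 1, Or.inr ?_⟩
  exact mem_iUnion.mpr ⟨⟨D, hn⟩, hv⟩

theorem mk_finsets_le {κ : Cardinal.{u}} (hκ : ℵ₀ ≤ κ) {T : Set V} (hT : #T ≤ κ) :
    #{D : Finset V // (D : Set V) ⊆ T} ≤ κ := by
  classical
  have h1 : #{D : Finset V // (D : Set V) ⊆ T} ≤ #(Finset T) := by
    refine mk_le_of_injective (f := fun D => D.1.subtype (· ∈ T)) ?_
    rintro ⟨D, hD⟩ ⟨E, hE⟩ h
    simp only [Subtype.mk.injEq]
    have h' : D.subtype (· ∈ T) = E.subtype (· ∈ T) := h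
    rw [← Finset.subtype_map_of_mem (p := (· ∈ T)) (fun x hx => hD hx), h',
      Finset.subtype_map_of_mem (p := (· ∈ T)) (fun x hx => hE hx)]
  refine h1.trans ?_
  rcases finite_or_infinite T with h | h
  · exact (lt_aleph0_of_finite _).le.trans hκ
  · rw [mk_finset_of_infinite]
    exact hT

theorem mk_it_le {g : Finset V → Set V} (hg : ∀ A, (g A).Countable) {κ : Cardinal.{u}}
    (hκ : ℵ₀ ≤ κ) (S : Set V) {A : Set V} (hA : #A ≤ κ) (n : ℕ) : #(it g S A n) ≤ κ := by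
  induction n with
  | zero => exact hA
  | succ n ih =>
    refine (mk_union_le _ _).trans (add_le_of_le hκ ih ?_)
    refine (mk_iUnion_le _).trans (mul_le_of_le hκ (mk_finsets_le hκ ih) ?_)
    refine ciSup_le' fun D => ?_
    exact (le_aleph0_iff_set_countable.mpr ((hg D.1).mono inter_subset_left)).trans hκ

theorem mk_cl_le {g : Finset V → Set V} (hg : ∀ A, (g A).Countable) {κ : Cardinal.{u}}
    (hκ : ℵ₀ ≤ κ) (S : Set V) {A : Set V} (hA : #A ≤ κ) : #(cl g S A) ≤ κ := by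
  have h := mk_iUnion_le_lift (it g S A)
  rw [lift_uzero] at h
  refine h.trans (mul_le_of_le hκ ?_ ?_)
  · simpa using hκ
  · refine ciSup_le' fun n => ?_
    rw [lift_uzero]
    exact mk_it_le hg hκ S hA n

theorem exists_rank {α : Type u} (r : α → α → Prop) (wf : WellFounded r)
    (hfin : ∀ v, {u | r u v}.Finite) : ∃ k : α → ℕ, ∀ u v, r u v → k u < k v := by
  classical
  let F : ∀ v, (∀ u, r u v → ℕ) → ℕ := fun v ih =>
    ((hfin v).toFinset.attach.sup fun u => ih u.1 ((hfin v).mem_toFinset.mp u.2)) + 1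
  refine ⟨wf.fix F, fun u v huv => ?_⟩
  have h := wf.fix_eq F v
  rw [h]
  refine Nat.lt_succ_of_le ?_
  exact Finset.le_sup (f := fun w : {x // x ∈ (hfin v).toFinset} => wf.fix F w.1)
    (Finset.mem_attach _ ⟨u, by simpa using huv⟩)

theorem main (H : Set (Set V)) (g : Finset V → Set V)
    (hg : ∀ A, (g A).Countable) (hH : ∀ h ∈ H, ∃ x ∈ h, ∃ y ∈ h, x ≠ y)
    (hcl : ∀ S M : Set V, M ⊆ S → (∀ A : Finset V, (A : Set V) ⊆ M → g A ∩ S ⊆ M) →
      ∀ v ∈ S, v ∉ M → {u | u ∈ M ∧ ∃ h ∈ H, h ⊆ S ∧ u ∈ h ∧ v ∈ h}.Finite) :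
    ∀ κ : Cardinal.{u}, ∀ S : Set V, #S = κ →
      ∃ c : V → ℕ, ∀ h ∈ H, h ⊆ S → ¬ ∃ a, ∀ x ∈ h, c x = a := by
  classical
  intro κ
  induction κ using WellFoundedLT.induction with
  | ind κ ih =>
  intro S hS
  rcases le_or_gt κ ℵ₀ with hκ | hκ
  · have hc : S.Countable := by
      rw [← le_aleph0_iff_set_countable, hS]
      exact hκ
    obtain ⟨c, hc⟩ := countable_iff_exists_injOn.mp hc
    refine ⟨c, fun h hh hhS ⟨a, ha⟩ => ?_⟩
    obtain ⟨x, hx, y, hy, hxy⟩ := hH h hh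
    exact hxy (hc (hhS hx) (hhS hy) ((ha x hx).trans (ha y hy).symm))
  · -- the uncountable case
    obtain ⟨e⟩ : Nonempty (S ≃ κ.ord.ToType) := by
      rw [← Cardinal.eq, mk_ord_toType, hS]
    let A : κ.ord.ToType → Set V := fun x => {v | ∃ h : v ∈ S, e ⟨v, h⟩ ≤ x}
    have hAS : ∀ x, A x ⊆ S := fun x v hv => hv.1
    have hAmono : ∀ {x y}, x ≤ y → A x ⊆ A y := fun hxy v hv => ⟨hv.1, hv.2.trans hxy⟩
    have hAcard : ∀ x, #(A x) < κ := by
      intro x
      have h1 : #(Iio x) < κ := by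
        have := mk_Iio_lt x (by simp)
        simpa using this
      have h2 : #(Iic x) < κ := by
        rw [← Iio_insert]
        exact mk_insert_le.trans_lt (add_one_lt_of_lt hκ.le h1)
      refine lt_of_le_of_lt ?_ h2
      have h3 : A x ⊆ (fun y => ((e.symm y : S) : V)) '' (Iic x) := by
        rintro v ⟨hv, hvx⟩
        exact ⟨e ⟨v, hv⟩, hvx, by simp⟩
      exact (mk_le_mk_of_subset h3).trans mk_image_le
    let M' : κ.ord.ToType → Set V := fun x => cl g S (A x)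
    have hM'S : ∀ x, M' x ⊆ S := fun x => cl_subset g (hAS x)
    have hM'mono : ∀ {x y}, x ≤ y → M' x ⊆ M' y := fun hxy => cl_mono g S (hAmono hxy)
    have hM'card : ∀ x, #(M' x) < κ := by
      intro x
      refine lt_of_le_of_lt (mk_cl_le hg (le_max_left ℵ₀ #(A x)) S (le_max_right _ _)) ?_
      exact max_lt hκ (hAcard x)
    have hex : ∀ v : S, ∃ x, (v : V) ∈ M' x ∧ ∀ y < x, (v : V) ∉ M' y := by
      intro v
      have hne : {x | (v : V) ∈ M' x}.Nonempty :=
        ⟨e v, subset_cl g S _ ⟨v.2, le_rfl⟩⟩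
      refine ⟨wellFounded_lt.min _ hne, wellFounded_lt.min_mem _ hne, fun y hy hmem => ?_⟩
      exact wellFounded_lt.not_lt_min {x | (v : V) ∈ M' x} hmem hy
    choose ρ hρ1 hρ2 using hex
    -- the set of conflicts is finite
    let r : S → S → Prop := fun u v => ρ u < ρ v ∧ ∃ h ∈ H, h ⊆ S ∧ (u : V) ∈ h ∧ (v : V) ∈ h
    have hrfin : ∀ v, {u | r u v}.Finite := by
      intro v
      by_cases hy : ∃ y, y < ρ v
      · obtain ⟨y0, hy0⟩ := hy
        have hne : Nonempty (Iio (ρ v)) := ⟨⟨y0, hy0⟩⟩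
        let N : Set V := ⋃ y : Iio (ρ v), M' y
        have hNS : N ⊆ S := iUnion_subset fun y => hM'S y
        have hvN : (v : V) ∉ N := by
          intro hv
          obtain ⟨y, hy⟩ := mem_iUnion.mp hv
          exact hρ2 v y y.2 hy
        have hNcl : ∀ D : Finset V, (D : Set V) ⊆ N → g D ∩ S ⊆ N := by
          intro D hD
          have hdir : Directed (· ⊆ ·) (fun y : Iio (ρ v) => M' y) := by
            have : Monotone (fun y : Iio (ρ v) => M' y) := fun y z hyz => hM'mono hyz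
            exact this.directed_le
          obtain ⟨y, hy⟩ := hdir.exists_mem_subset_of_finset_subset_biUnion hD
          exact (cl_closed g S _ D hy).trans (subset_iUnion (fun y : Iio (ρ v) => M' y) y)
        have hfin := hcl S N hNS hNcl v v.2 hvN
        refine (hfin.preimage Subtype.val_injective.injOn).subset ?_
        rintro u ⟨huv, hu⟩
        exact ⟨mem_iUnion.mpr ⟨⟨ρ u, huv⟩, hρ1 u⟩, hu⟩
      · refine Set.finite_empty.subset ?_
        rintro u ⟨huv, -⟩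
        exact hy ⟨_, huv⟩
    have hrwf : WellFounded r :=
      Subrelation.wf (fun {u v} (h : r u v) => h.1) (InvImage.wf ρ wellFounded_lt)
    obtain ⟨k, hk⟩ := exists_rank r hrwf hrfin
    -- the colourings of the layers
    have hL : ∀ x : κ.ord.ToType, ∃ c : V → ℕ, ∀ h ∈ H,
        h ⊆ {v | ∃ hv : v ∈ S, ρ ⟨v, hv⟩ = x} → ¬ ∃ a, ∀ y ∈ h, c y = a := by
      intro x
      refine ih _ ?_ _ rfl
      refine lt_of_le_of_lt (mk_le_mk_of_subset ?_) (hM'card x)
      rintro v ⟨hv, hx⟩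
      rw [← hx]
      exact hρ1 ⟨v, hv⟩
    choose cc hcc using hL
    refine ⟨fun v => if hv : v ∈ S then Nat.pair (cc (ρ ⟨v, hv⟩) v) (k ⟨v, hv⟩) else 0, ?_⟩
    rintro h hh hhS ⟨a, ha⟩
    have hpair : ∀ (x : V) (hx : x ∈ h), cc (ρ ⟨x, hhS hx⟩) x = a.unpair.1 ∧
        k ⟨x, hhS hx⟩ = a.unpair.2 := by
      intro x hx
      have h1 := ha x hx
      simp only [hhS hx, dif_pos] at h1
      rw [← h1, Nat.unpair_pair]
      exact ⟨rfl, rfl⟩
    obtain ⟨x0, hx0, -⟩ := hH h hh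
    have hconst : ∀ (x : V) (hx : x ∈ h), ρ ⟨x, hhS hx⟩ = ρ ⟨x0, hhS hx0⟩ := by
      intro x hx
      rcases lt_trichotomy (ρ ⟨x, hhS hx⟩) (ρ ⟨x0, hhS hx0⟩) with hlt | heq | hlt
      · exfalso
        have := hk ⟨x, hhS hx⟩ ⟨x0, hhS hx0⟩ ⟨hlt, h, hh, hhS, hx, hx0⟩
        rw [(hpair x hx).2, (hpair x0 hx0).2] at this
        exact lt_irrefl _ this
      · exact heq
      · exfalso
        have := hk ⟨x0, hhS hx0⟩ ⟨x, hhS hx⟩ ⟨hlt, h, hh, hhS, hx0, hx⟩
        rw [(hpair x hx).2, (hpair x0 hx0).2] at this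
        exact lt_irrefl _ this
    refine hcc (ρ ⟨x0, hhS hx0⟩) h hh (fun x hx => ⟨hhS hx, hconst x hx⟩) ⟨a.unpair.1, ?_⟩
    intro x hx
    rw [← hconst x hx]
    exact (hpair x hx).1

end

end P0

/-- P0 (Erdos-Hajnal lemma). -/
theorem eh_lemma {V : Type u} (H : Set (Set V)) (g : Finset V → Set V)
    (hg : ∀ A, (g A).Countable) (hH : ∀ h ∈ H, ∃ x ∈ h, ∃ y ∈ h, x ≠ y)
    (hcl : ∀ S M : Set V, M ⊆ S → (∀ A : Finset V, (A : Set V) ⊆ M → g A ∩ S ⊆ M) →
      ∀ v ∈ S, v ∉ M → {u | u ∈ M ∧ ∃ h ∈ H, h ⊆ S ∧ u ∈ h ∧ v ∈ h}.Finite) :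
    ∃ c : V → ℕ, ∀ h ∈ H, ¬ ∃ a, ∀ x ∈ h, c x = a := by
  obtain ⟨c, hc⟩ := P0.main H g hg hH hcl _ Set.univ rfl
  exact ⟨c, fun h hh => hc h hh (Set.subset_univ _)⟩

end Pool.Agent.H54.TS
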